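import Pool.Agent.P8H74.WP.Stm2

/-!
# Project WP, packages CNG (congruences of primitive vectors) and PIG (pigeonhole on the projective line)
-/

set_option autoImplicit false

open NumberField IsDedekindDomain Polynomial

namespace Pool.Agent.P8H83.WP

open Pool.Agent.P8H74.WP

section val

variable {L Γ₀ : Type} [Field L] [LinearOrderedCommGroupWithZero Γ₀] (w : Valuation L Γ₀)

lemma mul_lt {a b : L} (ha : w a ≤ 1) (hb : w b < 1) : w (a * b) < 1 := by
  rw [map_mul]
  exact (mul_le_of_le_one_left' ha).trans_lt hb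

lemma mul_lt' {a b : L} (ha : w a < 1) (hb : w b ≤ 1) : w (a * b) < 1 := by
  rw [mul_comm]
  exact mul_lt w hb ha

lemma pow_le {a : L} (ha : w a ≤ 1) (n : ℕ) : w (a ^ n) ≤ 1 := by
  rw [map_pow]
  exact pow_le_one₀ zero_le ha

lemma pow_sub {a b : L} (ha : w a ≤ 1) (hb : w b ≤ 1) (h : w (a - b) < 1) (n : ℕ) :
    w (a ^ n - b ^ n) < 1 := by
  induction n with
  | zero => simp
  | succ n ih =>
    have e : a ^ (n + 1) - b ^ (n + 1) = a ^ n * (a - b) + b * (a ^ n - b ^ n) := by ring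
    rw [e]
    exact w.map_add_lt (mul_lt w (pow_le w ha n) h) (mul_lt w hb ih)

lemma hom_le (d : ℕ) (f : L[X]) (hf : ∀ i, w (f.coeff i) ≤ 1) (a : L × L) (ha1 : w a.1 ≤ 1)
    (ha2 : w a.2 ≤ 1) : w (hom d f a) ≤ 1 := by
  rw [hom]
  refine w.map_sum_le fun i _ => ?_
  rw [map_mul, map_mul]
  exact mul_le_one' (hf i) (mul_le_one' (pow_le w ha1 i) (pow_le w ha2 _))

lemma hom_sub (d : ℕ) (f : L[X]) (hf : ∀ i, w (f.coeff i) ≤ 1) (a b : L × L)
    (ha1 : w a.1 ≤ 1) (ha2 : w a.2 ≤ 1) (hb1 : w b.1 ≤ 1) (hb2 : w b.2 ≤ 1)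
    (h1 : w (a.1 - b.1) < 1) (h2 : w (a.2 - b.2) < 1) :
    w (hom d f a - hom d f b) < 1 := by
  rw [hom, hom, ← Finset.sum_sub_distrib]
  refine w.map_sum_lt one_ne_zero fun i _ => ?_
  have e : f.coeff i * (a.1 ^ i * a.2 ^ (d - i)) - f.coeff i * (b.1 ^ i * b.2 ^ (d - i)) =
    f.coeff i * (a.1 ^ i * (a.2 ^ (d - i) - b.2 ^ (d - i)) +
      (a.1 ^ i - b.1 ^ i) * b.2 ^ (d - i)) := by ring
  rw [e]
  exact mul_lt w (hf i) (w.map_add_lt (mul_lt w (pow_le w ha1 i) (pow_sub w ha2 hb2 h2 _))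
    (mul_lt' w (pow_sub w ha1 hb1 h1 i) (pow_le w hb2 _)))

lemma hom_smul (d : ℕ) (f : L[X]) (c : L) (a : L × L) :
    hom d f (c * a.1, c * a.2) = c ^ d * hom d f a := by
  rw [hom, hom, Finset.mul_sum]
  refine Finset.sum_congr rfl fun i hi => ?_
  have hi' : i ≤ d := Nat.lt_succ_iff.1 (Finset.mem_range.1 hi)
  obtain ⟨j, rfl⟩ := Nat.exists_eq_add_of_le hi'
  simp only [Nat.add_sub_cancel_left]
  ring

lemma key (d : ℕ) (f g : L[X]) (hf : ∀ i, w (f.coeff i) ≤ 1) (hg : ∀ i, w (g.coeff i) ≤ 1)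
    (x y : L × L) (hx : Prim w x) (hy : Prim w y) (μ ν : L) (hμ : w μ = 1) (hν : w ν ≤ 1)
    (h1 : w (μ * x.1 - ν * y.1) < 1) (h2 : w (μ * x.2 - ν * y.2) < 1) :
    w (cross (rmap d f g x) (rmap d f g y)) < 1 := by
  have hle : ∀ c z : L, w c ≤ 1 → w z ≤ 1 → w (c * z) ≤ 1 := by
    intro c z hc hz
    rw [map_mul]
    exact mul_le_one' hc hz
  have hmain : ∀ k : L[X], (∀ i, w (k.coeff i) ≤ 1) →
      w (μ ^ d * hom d k x - ν ^ d * hom d k y) < 1 := by
    intro k hk
    rw [← hom_smul, ← hom_smul]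
    exact hom_sub w d k hk _ _ (hle _ _ hμ.le hx.1) (hle _ _ hμ.le hx.2.1) (hle _ _ hν hy.1)
      (hle _ _ hν hy.2.1) h1 h2
  have e : μ ^ d * cross (rmap d f g x) (rmap d f g y) =
      (μ ^ d * hom d f x - ν ^ d * hom d f y) * hom d g y -
        (μ ^ d * hom d g x - ν ^ d * hom d g y) * hom d f y := by
    simp only [cross, rmap]
    ring
  have h3 : w (μ ^ d * cross (rmap d f g x) (rmap d f g y)) < 1 := by
    rw [e]
    exact w.map_sub_lt (mul_lt' w (hmain f hf) (hom_le w d g hg y hy.1 hy.2.1))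
      (mul_lt' w (hmain g hg) (hom_le w d f hf y hy.1 hy.2.1))
  rwa [map_mul, map_pow, hμ, one_pow, one_mul] at h3

end val

/-- congruences of primitive vectors -/
theorem cng : S_CNG := by
  intro L Γ₀ _ _ w
  refine ⟨fun x y z hx hy hz hxy hyz => ?_, fun d f g hf hg x y hx hy hxy => ?_⟩
  · rcases hy.2.2 with h | h
    · have e : y.1 * cross x z = x.1 * cross y z + z.1 * cross x y := by
        simp only [cross]
        ring
      have h3 : w (y.1 * cross x z) < 1 := by
        rw [e]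
        exact w.map_add_lt (mul_lt w hx.1 hyz) (mul_lt w hz.1 hxy)
      rwa [map_mul, h, one_mul] at h3
    · have e : y.2 * cross x z = x.2 * cross y z + z.2 * cross x y := by
        simp only [cross]
        ring
      have h3 : w (y.2 * cross x z) < 1 := by
        rw [e]
        exact w.map_add_lt (mul_lt w hx.2.1 hyz) (mul_lt w hz.2.1 hxy)
      rwa [map_mul, h, one_mul] at h3
  · rcases hy.2.2 with h | h
    · refine key w d f g hf hg x y hx hy y.1 x.1 h hx.1 ?_ ?_
      · have e : y.1 * x.1 - x.1 * y.1 = 0 := by ring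
        rw [e, map_zero]
        exact zero_lt_one
      · have e : y.1 * x.2 - x.1 * y.2 = - cross x y := by
          simp only [cross]
          ring
        rw [e, Valuation.map_neg]
        exact hxy
    · refine key w d f g hf hg x y hx hy y.2 x.2 h hx.2.1 ?_ ?_
      · have e : y.2 * x.1 - x.2 * y.1 = cross x y := by
          simp only [cross]
          ring
        rw [e]
        exact hxy
      · have e : y.2 * x.2 - x.2 * y.2 = 0 := by ring
        rw [e, map_zero]
        exact zero_lt_one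

lemma root_of {L : Type} [Field L] [NumberField L] (P : HeightOneSpectrum (𝓞 L)) (q : ℕ) (x : L)
    (a : 𝓞 L) (hx : P.valuation L x ≤ 1) (ha : P.valuation L (algebraMap (𝓞 L) L a - x) < 1)
    (h : P.valuation L (x ^ q - x) < 1) :
    (Ideal.Quotient.mk P.asIdeal a) ^ q = Ideal.Quotient.mk P.asIdeal a := by
  rw [← map_pow, Ideal.Quotient.eq, ← P.valuation_lt_one_iff_mem (K := L)]
  change P.valuation L (algebraMap (𝓞 L) L (a ^ q - a)) < 1
  rw [map_sub, map_pow]
  have e : algebraMap (𝓞 L) L a ^ q - algebraMap (𝓞 L) L a =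
      (algebraMap (𝓞 L) L a ^ q - x ^ q) + (x ^ q - x) - (algebraMap (𝓞 L) L a - x) := by ring
  rw [e]
  exact (P.valuation L).map_sub_lt ((P.valuation L).map_add_lt
    (pow_sub _ (P.valuation_le_one a) hx ha q) h) ha

/-- pigeonhole on the projective line over a finite field -/
theorem pig : S_PIG := by
  intro L _ _ P q hq x hp h1 h2
  classical
  have hPm : P.asIdeal.IsMaximal := P.isPrime.isMaximal P.ne_bot
  let _ : Field (𝓞 L ⧸ P.asIdeal) := Ideal.Quotient.field P.asIdeal
  choose a ha using fun j => HeightOneSpectrum.exists_valuation_sub_lt_of_integer P (hp j).1 1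
  choose b hb using fun j => HeightOneSpectrum.exists_valuation_sub_lt_of_integer P (hp j).2.1 1
  simp only [Units.val_one] at ha hb
  have hrA : ∀ j, (Ideal.Quotient.mk P.asIdeal (a j)) ^ q = Ideal.Quotient.mk P.asIdeal (a j) :=
    fun j => root_of P q (x j).1 (a j) (hp j).1 (ha j) (h1 j)
  have hrB : ∀ j, (Ideal.Quotient.mk P.asIdeal (b j)) ^ q = Ideal.Quotient.mk P.asIdeal (b j) :=
    fun j => root_of P q (x j).2 (b j) (hp j).2.1 (hb j) (h2 j)
  have hcard : ((X ^ q - X : (𝓞 L ⧸ P.asIdeal)[X]).roots.toFinset).card ≤ q := by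
    refine (Multiset.toFinset_card_le _).trans ((Polynomial.card_roots' _).trans ?_)
    rw [FiniteField.X_pow_card_sub_X_natDegree_eq _ hq]
  let φ : ℕ → Option (𝓞 L ⧸ P.asIdeal) := fun j =>
    if Ideal.Quotient.mk P.asIdeal (b j) = 0 then none
    else some (Ideal.Quotient.mk P.asIdeal (a j) / Ideal.Quotient.mk P.asIdeal (b j))
  obtain ⟨i, hi, j, hj, hij, he⟩ := Finset.exists_ne_map_eq_of_card_lt_of_maps_to
    (s := Finset.range (q + 2))
    (t := Finset.insertNone (X ^ q - X : (𝓞 L ⧸ P.asIdeal)[X]).roots.toFinset)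
    (f := φ) (by rw [Finset.card_range, Finset.card_insertNone]; omega) (by
      intro j _
      rw [Finset.mem_coe, Finset.mem_insertNone]
      intro c hc
      by_cases h0 : Ideal.Quotient.mk P.asIdeal (b j) = 0
      · simp [φ, h0] at hc
      · simp only [φ, h0, if_false, Option.mem_def, Option.some.injEq] at hc
        rw [Multiset.mem_toFinset, Polynomial.mem_roots (FiniteField.X_pow_card_sub_X_ne_zero _ hq),
          ← hc]
        simp [Polynomial.IsRoot.def, div_pow, hrA j, hrB j])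
  have hmul : Ideal.Quotient.mk P.asIdeal (a i) * Ideal.Quotient.mk P.asIdeal (b j) =
      Ideal.Quotient.mk P.asIdeal (b i) * Ideal.Quotient.mk P.asIdeal (a j) := by
    by_cases hi0 : Ideal.Quotient.mk P.asIdeal (b i) = 0
    · by_cases hj0 : Ideal.Quotient.mk P.asIdeal (b j) = 0
      · rw [hi0, hj0, mul_zero, zero_mul]
      · simp [φ, hi0, hj0] at he
    · by_cases hj0 : Ideal.Quotient.mk P.asIdeal (b j) = 0
      · simp [φ, hi0, hj0] at he
      · simp only [φ, hi0, hj0, if_false, Option.some.injEq] at he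
        rw [div_eq_div_iff hi0 hj0] at he
        rw [he, mul_comm]
  have hlt : P.valuation L (cross (x i) (x j)) < 1 := by
    rw [← map_mul, ← map_mul, Ideal.Quotient.eq, ← P.valuation_lt_one_iff_mem (K := L)] at hmul
    change P.valuation L (algebraMap (𝓞 L) L (a i * b j - b i * a j)) < 1 at hmul
    rw [map_sub, map_mul, map_mul] at hmul
    have e : cross (x i) (x j) =
      (algebraMap (𝓞 L) L (a i) * algebraMap (𝓞 L) L (b j) -
        algebraMap (𝓞 L) L (b i) * algebraMap (𝓞 L) L (a j)) -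
      ((algebraMap (𝓞 L) L (a i) - (x i).1) * algebraMap (𝓞 L) L (b j) +
        (algebraMap (𝓞 L) L (b j) - (x j).2) * (x i).1) +
      ((algebraMap (𝓞 L) L (b i) - (x i).2) * algebraMap (𝓞 L) L (a j) +
        (algebraMap (𝓞 L) L (a j) - (x j).1) * (x i).2) := by
      simp only [cross]
      ring
    rw [e]
    exact (P.valuation L).map_add_lt ((P.valuation L).map_sub_lt hmul
      ((P.valuation L).map_add_lt (mul_lt' _ (ha i) (P.valuation_le_one (b j)))
        (mul_lt' _ (hb j) (hp i).1)))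
      ((P.valuation L).map_add_lt (mul_lt' _ (hb i) (P.valuation_le_one (a j)))
        (mul_lt' _ (ha j) (hp i).2.1))
  have hsymm : cross (x j) (x i) = - cross (x i) (x j) := by
    simp only [cross]
    ring
  rw [Finset.mem_range] at hi hj
  rcases lt_or_gt_of_ne hij with h3 | h3
  · exact ⟨i, j, h3, by omega, hlt⟩
  · refine ⟨j, i, h3, by omega, ?_⟩
    rw [hsymm, Valuation.map_neg]
    exact hlt

end Pool.Agent.P8H83.WP
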