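import Pool.Agent.P8H74.WP.Stm3

/-!
# Project WP, package DIV: a set of primes of positive lower density has a divergent sum of `1 / N v`
-/

set_option autoImplicit false

open NumberField IsDedekindDomain Filter Finset

namespace Pool.Agent.P8H83.WP

open Pool.Agent.P8H74.WP
open Pool.Agent.K3h30.RS (PosProportion)

lemma tel (m X : ℕ) (hm : 1 ≤ m) (hX : m ≤ X) :
    (1 / (m : ℝ)) = ∑ n ∈ Icc 1 X, (if m ≤ n then 1 / ((n : ℝ) * (n + 1)) else 0) +
      1 / ((X : ℝ) + 1) := by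
  induction X, hX using Nat.le_induction with
  | base =>
    rw [Finset.sum_eq_single_of_mem m (Finset.mem_Icc.2 ⟨hm, le_rfl⟩)]
    · have h0 : (m : ℝ) ≠ 0 := by
        have : 0 < (m : ℝ) := by exact_mod_cast hm
        exact this.ne'
      have h1 : (m : ℝ) + 1 ≠ 0 := by positivity
      rw [if_pos le_rfl]
      field_simp
      ring
    · intro n hn hne
      rw [if_neg]
      have := (Finset.mem_Icc.1 hn).2
      omega
  | succ X hX ih =>
    have h1 : (X : ℝ) + 1 ≠ 0 := by positivity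
    have h2 : (X : ℝ) + 1 + 1 ≠ 0 := by positivity
    have h3 : 1 / ((X : ℝ) + 1) = 1 / (((X : ℝ) + 1) * ((X : ℝ) + 1 + 1)) +
        1 / ((X : ℝ) + 1 + 1) := by
      field_simp
      ring
    rw [Finset.sum_Icc_succ_top (by omega), if_pos (by omega), ih, h3]
    push_cast
    ring

lemma abel {ι : Type} (s : Finset ι) (N : ι → ℕ) (X : ℕ) (hN : ∀ i ∈ s, 1 ≤ N i)
    (hX : ∀ i ∈ s, N i ≤ X) :
    ∑ i ∈ s, (1 / (N i : ℝ)) =
      ∑ n ∈ Icc 1 X, ((s.filter (fun i => N i ≤ n)).card : ℝ) * (1 / ((n : ℝ) * (n + 1))) +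
        (s.card : ℝ) * (1 / ((X : ℝ) + 1)) := by
  rw [Finset.sum_congr rfl fun i hi => tel (N i) X (hN i hi) (hX i hi), Finset.sum_add_distrib,
    Finset.sum_comm, Finset.sum_const, nsmul_eq_mul]
  congr 1
  refine Finset.sum_congr rfl fun n _ => ?_
  rw [← Finset.sum_filter, Finset.sum_const, nsmul_eq_mul]

lemma primes_le (X : ℕ) : ∑ p ∈ (range (X + 1)).filter Nat.Prime, (1 / (p : ℝ)) ≤
    ∑ n ∈ Icc 1 X, (Nat.primeCounting n : ℝ) * (1 / ((n : ℝ) * (n + 1))) + 1 := by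
  have h := abel ((range (X + 1)).filter Nat.Prime) (fun p => p) X
    (fun i hi => (Finset.mem_filter.1 hi).2.one_lt.le)
    (fun i hi => Nat.lt_succ_iff.1 (Finset.mem_range.1 (Finset.mem_filter.1 hi).1))
  rw [h]
  have h1 : ∀ n ∈ Icc 1 X, ((((range (X + 1)).filter Nat.Prime).filter (fun i => i ≤ n)).card : ℝ) =
      (Nat.primeCounting n : ℝ) := by
    intro n hn
    have hn' := (Finset.mem_Icc.1 hn).2
    rw [Nat.primeCounting, Nat.primeCounting', Nat.count_eq_card_filter_range]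
    congr 2
    ext p
    simp only [Finset.mem_filter, Finset.mem_range]
    constructor
    · rintro ⟨⟨_, h2⟩, h3⟩
      exact ⟨by omega, h2⟩
    · rintro ⟨h2, h3⟩
      exact ⟨⟨by omega, h3⟩, by omega⟩
  rw [Finset.sum_congr rfl fun n hn => by rw [h1 n hn]]
  have h2 : (((range (X + 1)).filter Nat.Prime).card : ℝ) * (1 / ((X : ℝ) + 1)) ≤ 1 := by
    have h3 : (((range (X + 1)).filter Nat.Prime).card : ℝ) ≤ (X : ℝ) + 1 := by
      have h4 := Finset.card_filter_le (range (X + 1)) Nat.Prime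
      rw [Finset.card_range] at h4
      exact_mod_cast h4
    rw [mul_one_div]
    exact (div_le_one (by positivity)).2 h3
  linarith

lemma final (c : ℝ) (hc : 0 < c) (A : ℕ → ℕ) (n0 : ℕ)
    (hn0 : ∀ n, n0 ≤ n → c * (Nat.primeCounting n : ℝ) ≤ (A n : ℝ)) (b : ℝ)
    (hAb : ∀ X : ℕ, ∑ n ∈ Icc 1 X, (A n : ℝ) * (1 / ((n : ℝ) * (n + 1))) ≤ b) : False := by
  refine not_summable_one_div_on_primes (summable_of_sum_range_le
    (c := ∑ n ∈ Icc 1 n0, (Nat.primeCounting n : ℝ) * (1 / ((n : ℝ) * (n + 1))) +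
      c⁻¹ * b + 1) (fun n => Set.indicator_nonneg (fun _ _ => by positivity) n)
      fun X => ?_)
  have h1 : ∑ i ∈ range X, Set.indicator {p : ℕ | p.Prime} (fun n : ℕ => (1 : ℝ) / n) i ≤
      ∑ p ∈ (range (X + 1)).filter Nat.Prime, (1 / (p : ℝ)) := by
    rw [Finset.sum_filter]
    refine (Finset.sum_le_sum_of_subset_of_nonneg (Finset.range_subset_range.2 (Nat.le_succ X))
      fun i _ _ => Set.indicator_nonneg (fun _ _ => by positivity) i).trans (le_of_eq ?_)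
    refine Finset.sum_congr rfl fun i _ => ?_
    rw [Set.indicator_apply]
    rfl
  have h2 := primes_le X
  have h3 : ∀ n ∈ Icc 1 X, (Nat.primeCounting n : ℝ) * (1 / ((n : ℝ) * (n + 1))) ≤
      (if n ≤ n0 then (Nat.primeCounting n : ℝ) * (1 / ((n : ℝ) * (n + 1))) else 0) +
      c⁻¹ * ((A n : ℝ) * (1 / ((n : ℝ) * (n + 1)))) := by
    intro n _
    by_cases hn : n ≤ n0
    · rw [if_pos hn]
      have : 0 ≤ c⁻¹ * ((A n : ℝ) * (1 / ((n : ℝ) * (n + 1)))) := by positivity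
      linarith
    · rw [if_neg hn, zero_add, ← mul_assoc]
      refine mul_le_mul_of_nonneg_right ?_ (by positivity)
      have h4 := hn0 n (by omega)
      have h5 := mul_le_mul_of_nonneg_left h4 (inv_pos.2 hc).le
      rwa [← mul_assoc, inv_mul_cancel₀ hc.ne', one_mul] at h5
  have h4 := Finset.sum_le_sum h3
  rw [Finset.sum_add_distrib, ← Finset.mul_sum, ← Finset.sum_filter] at h4
  have h5 : ∑ n ∈ (Icc 1 X).filter (fun n => n ≤ n0),
      (Nat.primeCounting n : ℝ) * (1 / ((n : ℝ) * (n + 1))) ≤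
      ∑ n ∈ Icc 1 n0, (Nat.primeCounting n : ℝ) * (1 / ((n : ℝ) * (n + 1))) := by
    refine Finset.sum_le_sum_of_subset_of_nonneg (fun n hn => ?_) fun n _ _ => by positivity
    rw [Finset.mem_filter, Finset.mem_Icc] at hn
    exact Finset.mem_Icc.2 ⟨hn.1.1, hn.2⟩
  have h6 := mul_le_mul_of_nonneg_left (hAb X) (inv_pos.2 hc).le
  linarith

/-- a bounded counting function -/
lemma count_le {V : Type} (P : V → Prop) (N : V → ℕ) (hpos : ∀ v, 1 ≤ N v)
    (hfin : ∀ X : ℕ, {v : V | P v ∧ N v ≤ X}.Finite) (b : ℝ)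
    (hb : ∀ F : Finset V, (∀ v ∈ F, P v) → ∑ v ∈ F, (1 / (N v : ℝ)) ≤ b) (X : ℕ) :
    ∑ n ∈ Icc 1 X, ((Nat.card {v : V // P v ∧ N v ≤ n} : ℕ) : ℝ) * (1 / ((n : ℝ) * (n + 1))) ≤ b := by
  classical
  have hA : ∀ X : ℕ, Nat.card {v : V // P v ∧ N v ≤ X} = (hfin X).toFinset.card :=
    fun X => Set.ncard_eq_toFinset_card _ (hfin X)
  have h1 := abel (hfin X).toFinset N X (fun v _ => hpos v)
    (fun v hv => ((hfin X).mem_toFinset.1 hv).2)
  have h2 := hb (hfin X).toFinset (fun v hv => ((hfin X).mem_toFinset.1 hv).1)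
  have h3 : ∀ n ∈ Icc 1 X, ((Nat.card {v : V // P v ∧ N v ≤ n} : ℕ) : ℝ) =
      (((hfin X).toFinset.filter (fun v => N v ≤ n)).card : ℝ) := by
    intro n hn
    have hn' := (Finset.mem_Icc.1 hn).2
    rw [hA n]
    congr 2
    ext v
    rw [Finset.mem_filter, (hfin X).mem_toFinset, (hfin n).mem_toFinset]
    constructor
    · rintro ⟨h4, h5⟩
      exact ⟨⟨h4, h5.trans hn'⟩, h5⟩
    · rintro ⟨⟨h4, _⟩, h5⟩
      exact ⟨h4, h5⟩
  have h7 : ∑ n ∈ Icc 1 X, ((Nat.card {v : V // P v ∧ N v ≤ n} : ℕ) : ℝ) *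
      (1 / ((n : ℝ) * (n + 1))) = ∑ n ∈ Icc 1 X,
      (((hfin X).toFinset.filter (fun v => N v ≤ n)).card : ℝ) * (1 / ((n : ℝ) * (n + 1))) :=
    Finset.sum_congr rfl fun n hn => by rw [h3 n hn]
  have h6 : 0 ≤ ((hfin X).toFinset.card : ℝ) * (1 / ((X : ℝ) + 1)) :=
    mul_nonneg (Nat.cast_nonneg _) (by positivity)
  rw [h7]
  linarith

theorem div : S_DIV := by
  intro K _ _ P hP ε hε
  classical
  obtain ⟨c, hc, hP⟩ := hP
  obtain ⟨n0, hn0⟩ := eventually_atTop.1 hP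
  by_contra hcon
  push Not at hcon
  have hpos : ∀ v : HeightOneSpectrum (𝓞 K), 1 ≤ Ideal.absNorm v.asIdeal := fun v =>
    Nat.one_le_iff_ne_zero.2 (by
      rw [Ne, Ideal.absNorm_eq_zero_iff]
      exact v.ne_bot)
  have hfin : ∀ X : ℕ, {v : HeightOneSpectrum (𝓞 K) | P v ∧ Ideal.absNorm v.asIdeal ≤ X}.Finite := by
    intro X
    have h1 : {v : HeightOneSpectrum (𝓞 K) | Ideal.absNorm v.asIdeal ≤ X}.Finite :=
      Set.Finite.preimage (f := fun v : HeightOneSpectrum (𝓞 K) => v.asIdeal)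
        (fun v _ w _ h => HeightOneSpectrum.ext h) (Ideal.finite_setOfPred_absNorm_le X)
    exact h1.subset fun v hv => hv.2
  -- all the finite sums are bounded
  have hb : ∀ F : Finset (HeightOneSpectrum (𝓞 K)), (∀ v ∈ F, P v) →
      ∑ v ∈ F, (1 / (Ideal.absNorm v.asIdeal : ℝ)) ≤ - Real.log ε := by
    intro F hF
    have h1 := hcon F hF
    have h2 : ∏ v ∈ F, (1 - 1 / (Ideal.absNorm v.asIdeal : ℝ)) ≤
        ∏ v ∈ F, Real.exp (-(1 / (Ideal.absNorm v.asIdeal : ℝ))) := by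
      refine Finset.prod_le_prod (fun v _ => ?_) (fun v _ => ?_)
      · have h3 : (1 : ℝ) ≤ Ideal.absNorm v.asIdeal := by exact_mod_cast hpos v
        have h4 : 1 / (Ideal.absNorm v.asIdeal : ℝ) ≤ 1 := (div_le_one (by linarith)).2 h3
        linarith
      · have h5 := Real.add_one_le_exp (-(1 / (Ideal.absNorm v.asIdeal : ℝ)))
        linarith
    rw [← Real.exp_sum, Finset.sum_neg_distrib] at h2
    have h6 := Real.log_lt_log hε (h1.trans_le h2)
    rw [Real.log_exp] at h6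
    linarith
  exact final c hc (fun n => Nat.card {v : HeightOneSpectrum (𝓞 K) // P v ∧
    Ideal.absNorm v.asIdeal ≤ n}) n0 hn0 (- Real.log ε)
    (count_le P (fun v => Ideal.absNorm v.asIdeal) hpos hfin _ hb)

end Pool.Agent.P8H83.WP
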