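import Pool.Agent.P8H74.WP.Stm4

/-!
# Project WP, package PW2
-/

set_option autoImplicit false

open Polynomial

namespace Pool.Agent.P8H83.WP

open Pool.Agent.P8H74.WP

lemma pow_card {k : Type} [Field k] [Finite k] (d m : ℕ) (hd : 0 < d) (hm0 : 0 < m)
    (hm : Nat.card k - 1 = d * m) (a : k) : {c : k | ∃ y, y ^ d = a - c}.ncard ≤ m + 1 := by
  classical
  let _ := Fintype.ofFinite k
  have h1 : {c : k | ∃ y, y ^ d = a - c} ⊆
      (fun x => a - x) '' (insert 0 ((nthRoots m (1 : k)).toFinset : Set k)) := by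
    rintro c ⟨y, hy⟩
    refine ⟨y ^ d, ?_, ?_⟩
    · rcases eq_or_ne y 0 with h | h
      · left
        rw [h, zero_pow (by omega)]
      · right
        rw [Finset.mem_coe, Multiset.mem_toFinset, mem_nthRoots hm0, ← pow_mul, ← hm,
          Nat.card_eq_fintype_card]
        exact FiniteField.pow_card_sub_one_eq_one y h
    · change a - y ^ d = c
      rw [hy]
      ring
  refine (Set.ncard_le_ncard h1 (Set.toFinite _)).trans
    ((Set.ncard_image_le (Set.toFinite _)).trans ((Set.ncard_insert_le _ _).trans ?_))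
  rw [Set.ncard_coe_finset]
  exact Nat.succ_le_succ ((Multiset.toFinset_card_le _).trans (card_nthRoots m 1))

lemma both {k : Type} [Field k] [Finite k] (h2 : (2 : k) ≠ 0) (a b : k) :
    Nat.card k - 1 ≤ 4 * ({c : k | ∃ y, y ^ 2 = a - c} ∩ {c : k | ∃ y, y ^ 2 = b - c}).ncard := by
  classical
  let _ := Fintype.ofFinite k
  have hc : (Finset.univ.filter fun z : k => z ≠ 0).card = Nat.card k - 1 := by
    rw [Finset.filter_ne', Finset.card_erase_of_mem (Finset.mem_univ _), Finset.card_univ,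
      Nat.card_eq_fintype_card]
  rw [Set.ncard_eq_toFinset_card _ (Set.toFinite _), ← hc]
  refine Finset.card_le_mul_card_image_of_maps_to
    (f := fun z : k => a - (((b - a) / z - z) / 2) ^ 2) (fun z hz => ?_) 4 (fun c _ => ?_)
  · have hz0 : z ≠ 0 := (Finset.mem_filter.1 hz).2
    rw [Set.Finite.mem_toFinset]
    refine ⟨⟨((b - a) / z - z) / 2, by ring⟩, ⟨(z + (b - a) / z) / 2, ?_⟩⟩
    field_simp
    ring
  · have hmon : (X ^ 4 - C (2 * (b - a) + 4 * (a - c)) * X ^ 2 + C ((b - a) ^ 2) : k[X]).Monic := by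
      monicity!
    have hdeg : (X ^ 4 - C (2 * (b - a) + 4 * (a - c)) * X ^ 2 + C ((b - a) ^ 2) : k[X]).natDegree ≤ 4 := by
      compute_degree
    have hsub : ((Finset.univ.filter fun z : k => z ≠ 0).filter
        (fun z => a - (((b - a) / z - z) / 2) ^ 2 = c)) ⊆
        (X ^ 4 - C (2 * (b - a) + 4 * (a - c)) * X ^ 2 + C ((b - a) ^ 2) : k[X]).roots.toFinset := by
      intro z hz
      rw [Finset.mem_filter, Finset.mem_filter] at hz
      obtain ⟨⟨_, hz0⟩, hzc⟩ := hz
      rw [Multiset.mem_toFinset, mem_roots hmon.ne_zero, IsRoot.def]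
      simp only [eval_add, eval_sub, eval_mul, eval_pow, eval_X, eval_C]
      rw [← hzc]
      field_simp
      ring
    exact (Finset.card_le_card hsub).trans ((Multiset.toFinset_card_le _).trans
      ((card_roots' _).trans hdeg))

theorem pw2 : S_PW2 := by
  intro k _ _ hdq a b
  classical
  let _ := Fintype.ofFinite k
  have hq : 1 < Nat.card k := Finite.one_lt_card
  obtain ⟨m, hm⟩ := hdq
  have hm0 : 0 < m := by omega
  have hA := pow_card 2 m (by norm_num) hm0 hm a
  have hB := pow_card 2 m (by norm_num) hm0 hm b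
  have h2 : (2 : k) ≠ 0 := by
    apply Ring.two_ne_zero
    intro h
    have h3 := (FiniteField.even_card_iff_char_two).1 h
    rw [← Nat.card_eq_fintype_card] at h3
    omega
  have hS : {c : k | (∀ y, y ^ 2 ≠ a - c) ∧ ∀ y, y ^ 2 ≠ b - c} =
      ({c : k | ∃ y, y ^ 2 = a - c} ∪ {c : k | ∃ y, y ^ 2 = b - c})ᶜ := by
    ext c
    constructor
    · rintro ⟨h3, h4⟩ (⟨y, hy⟩ | ⟨y, hy⟩)
      · exact h3 y hy
      · exact h4 y hy
    · intro h
      exact ⟨fun y hy => h (Or.inl ⟨y, hy⟩), fun y hy => h (Or.inr ⟨y, hy⟩)⟩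
  have h4 := Set.ncard_add_ncard_compl
    ({c : k | ∃ y, y ^ 2 = a - c} ∪ {c : k | ∃ y, y ^ 2 = b - c})
  have h5 := Set.ncard_union_add_ncard_inter {c : k | ∃ y, y ^ 2 = a - c}
    {c : k | ∃ y, y ^ 2 = b - c} (Set.toFinite _) (Set.toFinite _)
  have h6 := both h2 a b
  rw [hS]
  omega

end Pool.Agent.P8H83.WP
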