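import Pool.Agent.P8H74.WP.Stm4

/-!
# Project WP, package PW3
-/

set_option autoImplicit false

open Polynomial

namespace Pool.Agent.P8H83.WP

open Pool.Agent.P8H74.WP

theorem pw3 : S_PW3 := by
  intro k _ _ d hd hdq a b
  classical
  let _ := Fintype.ofFinite k
  have hq : 1 < Nat.card k := Finite.one_lt_card
  obtain ⟨m, hm⟩ := hdq
  have hm0 : 0 < m := by
    rcases Nat.eq_zero_or_pos m with h | h
    · rw [h, mul_zero] at hm
      omega
    · exact h
  have h3 : 3 * m ≤ Nat.card k - 1 := by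
    rw [hm]
    exact Nat.mul_le_mul_right m hd
  have hDc : {x : k | ∃ y, y ^ d = x}.ncard ≤ m + 1 := by
    have h1 : {x : k | ∃ y, y ^ d = x} ⊆ insert 0 ((nthRoots m (1 : k)).toFinset : Set k) := by
      rintro x ⟨y, rfl⟩
      rcases eq_or_ne y 0 with h | h
      · left
        rw [h, zero_pow (by omega)]
      · right
        rw [Finset.mem_coe, Multiset.mem_toFinset, mem_nthRoots hm0, ← pow_mul, ← hm,
          Nat.card_eq_fintype_card]
        exact FiniteField.pow_card_sub_one_eq_one y h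
    refine (Set.ncard_le_ncard h1 (Set.toFinite _)).trans ?_
    refine (Set.ncard_insert_le _ _).trans ?_
    rw [Set.ncard_coe_finset]
    exact Nat.succ_le_succ ((Multiset.toFinset_card_le _).trans (card_nthRoots m 1))
  have hS : {c : k | (∀ y, y ^ d ≠ a - c) ∧ ∀ y, y ^ d ≠ b - c}ᶜ ⊆
      (fun x => a - x) '' {x : k | ∃ y, y ^ d = x} ∪
        (fun x => b - x) '' {x : k | ∃ y, y ^ d = x} := by
    intro c hc
    by_contra h
    refine hc ⟨fun y hy => h (Or.inl ⟨y ^ d, ⟨y, rfl⟩, ?_⟩),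
      fun y hy => h (Or.inr ⟨y ^ d, ⟨y, rfl⟩, ?_⟩)⟩
    · change a - y ^ d = c
      rw [hy]
      ring
    · change b - y ^ d = c
      rw [hy]
      ring
  have h4 := Set.ncard_add_ncard_compl {c : k | (∀ y, y ^ d ≠ a - c) ∧ ∀ y, y ^ d ≠ b - c}
  have h5 := (Set.ncard_le_ncard hS (Set.toFinite _)).trans (Set.ncard_union_le _ _)
  have h6 := Set.ncard_image_le (f := fun x => a - x) (Set.toFinite {x : k | ∃ y, y ^ d = x})
  have h7 := Set.ncard_image_le (f := fun x => b - x) (Set.toFinite {x : k | ∃ y, y ^ d = x})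
  omega

end Pool.Agent.P8H83.WP
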